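import Pool.Agent.N463.HW.Stm

/-!
# Project HW (helper463), part EV: evaluation is a homomorphism and commutes with `exp`
-/

set_option autoImplicit false

open Set Filter Topology

namespace Pool.Agent.N7.HW

open Pool.Agent.N463.HW

/-- `u ↦ ∑ u_n z^n` for `|z| = 1` -/
noncomputable def chr (z : ℂ) (hz : ‖z‖ = 1) : E →L[ℝ] ℂ :=
  LinearMap.mkContinuous
    { toFun := fun u => ∑' n : ℤ, ((u n : ℝ) : ℂ) * z ^ n
      map_add' := fun u v => by
        have h : ∀ w : E, Summable (fun n : ℤ => ((w n : ℝ) : ℂ) * z ^ n) := fun w => by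
          apply Summable.of_norm
          apply (E_summable w).congr
          intro n
          rw [norm_mul, norm_zpow, hz, one_zpow, mul_one, Complex.norm_real]
        rw [← (h u).tsum_add (h v)]
        congr 1; ext n
        rw [← add_mul, ← Complex.ofReal_add]; rfl
      map_smul' := fun c u => by
        simp only [RingHom.id_apply]
        rw [Complex.real_smul, ← tsum_mul_left]
        congr 1; ext n
        rw [← mul_assoc, ← Complex.ofReal_mul]; rfl } 1 (fun u => by
      rw [one_mul, E_norm]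
      have h : Summable (fun n : ℤ => ‖((u n : ℝ) : ℂ) * z ^ n‖) := by
        apply (E_summable u).congr
        intro n
        rw [norm_mul, norm_zpow, hz, one_zpow, mul_one, Complex.norm_real]
      refine (norm_tsum_le_tsum_norm h).trans (le_of_eq ?_)
      congr 1; ext n
      rw [norm_mul, norm_zpow, hz, one_zpow, mul_one, Complex.norm_real])

lemma chr_apply (z : ℂ) (hz : ‖z‖ = 1) (u : E) :
    chr z hz u = ∑' n : ℤ, ((u n : ℝ) : ℂ) * z ^ n := rfl

lemma chr_norm (z : ℂ) (hz : ‖z‖ = 1) (u : E) : ‖chr z hz u‖ ≤ ‖u‖ := by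
  have h := (chr z hz).le_opNorm u
  have h2 : ‖chr z hz‖ ≤ 1 := LinearMap.mkContinuous_norm_le _ zero_le_one _
  exact h.trans (mul_le_of_le_one_left (norm_nonneg _) h2)

lemma chr_Sh (z : ℂ) (hz : ‖z‖ = 1) (k : ℤ) (u : E) : chr z hz (Sh k u) = z ^ k * chr z hz u := by
  have hz0 : z ≠ 0 := by rintro rfl; simp at hz
  rw [chr_apply, chr_apply, ← tsum_mul_left]
  rw [← (Equiv.subRight k).tsum_eq (fun n => z ^ k * (((u n : ℝ) : ℂ) * z ^ n))]
  congr 1; ext n
  rw [Sh_apply]
  show _ = z ^ k * (((u (n - k) : ℝ) : ℂ) * z ^ (n - k))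
  rw [zpow_sub₀ hz0]
  have := zpow_ne_zero k hz0
  field_simp

lemma chr_e0 (z : ℂ) (hz : ‖z‖ = 1) : chr z hz e0 = 1 := by
  rw [chr_apply, tsum_eq_single 0]
  · rw [e0_apply]; simp
  · intro n hn
    rw [e0_apply]; simp [hn]

/-- the operators on which the evaluation is multiplicative -/
noncomputable def ZZ (z : ℂ) (hz : ‖z‖ = 1) : Subalgebra ℝ (E →L[ℝ] E) where
  carrier := {T | ∀ u, chr z hz (T u) = chr z hz (T e0) * chr z hz u}
  mul_mem' := fun {T S} hT hS u => by
    have hT' : ∀ u, chr z hz (T u) = chr z hz (T e0) * chr z hz u := hT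
    have hS' : ∀ u, chr z hz (S u) = chr z hz (S e0) * chr z hz u := hS
    show chr z hz (T (S u)) = chr z hz (T (S e0)) * chr z hz u
    rw [hT' (S u), hS' u, hT' (S e0)]; ring
  add_mem' := fun {T S} hT hS u => by
    have hT' : ∀ u, chr z hz (T u) = chr z hz (T e0) * chr z hz u := hT
    have hS' : ∀ u, chr z hz (S u) = chr z hz (S e0) * chr z hz u := hS
    show chr z hz (T u + S u) = chr z hz (T e0 + S e0) * chr z hz u
    rw [map_add, map_add, hT' u, hS' u]; ring
  algebraMap_mem' := fun r u => by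
    show chr z hz (r • u) = chr z hz (r • e0) * chr z hz u
    rw [map_smul, map_smul, chr_e0, Complex.real_smul, Complex.real_smul, mul_one]

lemma ZZ_closed (z : ℂ) (hz : ‖z‖ = 1) : IsClosed (ZZ z hz : Set (E →L[ℝ] E)) := by
  have h : (ZZ z hz : Set (E →L[ℝ] E)) =
      ⋂ u, {T | chr z hz (T u) = chr z hz (T e0) * chr z hz u} := by
    ext T
    simp only [mem_iInter]
    rfl
  rw [h]
  refine isClosed_iInter (fun u => ?_)
  have c1 : ∀ u : E, Continuous (fun T : E →L[ℝ] E => chr z hz (T u)) := fun u =>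
    (chr z hz).continuous.comp (ContinuousLinearMap.apply ℝ E u).continuous
  exact isClosed_eq (c1 u) ((c1 e0).mul continuous_const)

lemma mult (z : ℂ) (hz : ‖z‖ = 1) (w : W) (u : E) :
    chr z hz (w.1 u) = chr z hz (w.1 e0) * chr z hz u := by
  have h : WA ≤ ZZ z hz := by
    apply WA_le (ZZ_closed z hz)
    intro k u
    rw [chr_Sh, chr_Sh, chr_e0, mul_one]
  exact h w.2 u

lemma ev_eq (z : ℂ) (hz : ‖z‖ = 1) (w : W) : ev z w = chr z hz (w.1 e0) := rfl

/-- the evaluation as a ring homomorphism -/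
noncomputable def evR (z : ℂ) (hz : ‖z‖ = 1) : W →+* ℂ where
  toFun := ev z
  map_one' := by
    rw [ev_eq z hz]
    exact chr_e0 z hz
  map_mul' := fun u w => by
    rw [ev_eq z hz, ev_eq z hz, ev_eq z hz]
    exact mult z hz u (w.1 e0)
  map_zero' := by
    rw [ev_eq z hz]
    exact map_zero (chr z hz)
  map_add' := fun u w => by
    rw [ev_eq z hz, ev_eq z hz, ev_eq z hz]
    exact map_add (chr z hz) (u.1 e0) (w.1 e0)

lemma evR_continuous (z : ℂ) (hz : ‖z‖ = 1) : Continuous (evR z hz) := by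
  have h : Continuous (fun w : W => chr z hz (w.1 e0)) :=
    (chr z hz).continuous.comp ((ContinuousLinearMap.apply ℝ E e0).continuous.comp
      continuous_subtype_val)
  exact h

/-- EV: evaluation is a homomorphism and commutes with `exp`. -/
theorem t_EV : S_EV := by
  intro z hz
  refine ⟨fun u w => map_add (evR z hz) u w, fun c w => ?_, fun u w => map_mul (evR z hz) u w,
    map_one (evR z hz), fun k => ?_, fun w => ?_, fun w => ?_⟩
  · rw [ev_eq z hz, ev_eq z hz]
    have h := (chr z hz).map_smul c (w.1 e0)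
    rw [Complex.real_smul] at h
    exact h
  · rw [ev_eq z hz]
    show chr z hz (Sh k e0) = z ^ k
    rw [chr_Sh, chr_e0, mul_one]
  · rw [ev_eq z hz]
    refine (chr_norm z hz _).trans ?_
    have := w.1.le_opNorm e0
    rw [e0_norm, mul_one] at this
    exact this
  · have h := NormedSpace.map_exp_of_mem_ball (𝕂 := ℝ) (evR z hz) (evR_continuous z hz) w
      ((NormedSpace.expSeries_radius_eq_top ℝ W).symm ▸ edist_lt_top _ _)
    rw [Complex.exp_eq_exp_ℂ]
    exact h

end Pool.Agent.N7.HW
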